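import Pool.Agent.W221.NS.Stm
import Pool.Agent.H459R3.NS.Sol

/-!
The enstrophy is integrable.
-/

set_option autoImplicit false

open MeasureTheory Set Filter Topology
open scoped ContDiff

namespace Pool.Agent.W125.MD

open H459R3.NS W221.NS

theorem energy_nonneg (v : V → V) : 0 ≤ energy v := by
  unfold energy
  exact Finset.sum_nonneg fun i _ => integral_nonneg fun x => sq_nonneg _

theorem enstrophy_nonneg (v : V → V) : 0 ≤ enstrophy v := by
  unfold enstrophy
  exact Finset.sum_nonneg fun i _ => Finset.sum_nonneg fun j _ =>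
    integral_nonneg fun x => sq_nonneg _

theorem int_enst {ν T : ℝ} {u : ℝ → V → V} {p : ℝ → V → ℝ} (hν : 0 < ν) (h : IsSol ν T u p)
    {b : ℝ} (hb0 : 0 ≤ b) (hb : b < T) :
    ∫ t in (0 : ℝ)..b, enstrophy (u t) ≤ energy (u 0) / (2 * ν) := by
  have hsub : Icc 0 b ⊆ Ico 0 T := fun s hs => ⟨hs.1, hs.2.trans_lt hb⟩
  have hc : ContinuousOn (fun s => -energy (u s) / (2 * ν)) (Icc 0 b) :=
    (h.energy_continuousOn.mono hsub).neg.div_const _
  have hd : ∀ s ∈ Ioo 0 b, HasDerivAt (fun s => -energy (u s) / (2 * ν)) (enstrophy (u s)) s := by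
    intro s hs
    have h1 := ((h.energy_hasDerivAt ⟨hs.1, hs.2.trans hb⟩).neg).div_const (2 * ν)
    refine h1.congr_deriv ?_
    field_simp
  have hi : IntervalIntegrable (fun s => enstrophy (u s)) volume 0 b := by
    apply ContinuousOn.intervalIntegrable
    rw [uIcc_of_le hb0]
    exact h.enstrophy_continuousOn.mono hsub
  rw [intervalIntegral.integral_eq_sub_of_hasDerivAt_of_le hb0 hc hd hi]
  have h2 := energy_nonneg (u b)
  have h3 : -energy (u b) / (2 * ν) ≤ 0 := by
    apply div_nonpos_of_nonpos_of_nonneg <;> linarith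
  have h4 : -energy (u 0) / (2 * ν) = -(energy (u 0) / (2 * ν)) := by ring
  rw [h4]
  linarith

theorem t_ENST : S_ENST := by
  intro ν T u p hν hT h
  have hb : ∀ n : ℕ, 0 ≤ T - T / ((n : ℝ) + 1) ∧ T - T / ((n : ℝ) + 1) < T := by
    intro n
    have h1 : (0 : ℝ) < (n : ℝ) + 1 := by positivity
    have h2 : T / ((n : ℝ) + 1) ≤ T := by
      rw [div_le_iff₀ h1]
      nlinarith [Nat.cast_nonneg (α := ℝ) n]
    have h3 : 0 < T / ((n : ℝ) + 1) := by positivity
    exact ⟨by linarith, by linarith⟩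
  have htend : Tendsto (fun n : ℕ => T - T / ((n : ℝ) + 1)) atTop (𝓝 T) := by
    have h1 : Tendsto (fun n : ℕ => T / ((n : ℝ) + 1)) atTop (𝓝 0) := by
      have := (tendsto_one_div_add_atTop_nhds_zero_nat (𝕜 := ℝ)).const_mul T
      simpa [div_eq_mul_inv] using this
    simpa using h1.const_sub T
  have key : IntegrableOn (fun t => enstrophy (u t)) (Ioc 0 T) := by
    refine integrableOn_Ioc_of_intervalIntegral_norm_bounded_right
      (I := energy (u 0) / (2 * ν)) (b := fun n : ℕ => T - T / ((n : ℝ) + 1)) (l := atTop)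
      (fun n => ?_) htend (Filter.Eventually.of_forall fun n => ?_)
    · have hsub : Icc 0 (T - T / ((n : ℝ) + 1)) ⊆ Ico 0 T :=
        fun s hs => ⟨hs.1, hs.2.trans_lt (hb n).2⟩
      exact ((h.enstrophy_continuousOn.mono hsub).integrableOn_Icc).mono_set Ioc_subset_Icc_self
    · rw [← intervalIntegral.integral_of_le (hb n).1]
      have h1 := int_enst hν h (hb n).1 (hb n).2
      refine le_trans (le_of_eq ?_) h1
      refine intervalIntegral.integral_congr fun t _ => ?_
      exact Real.norm_of_nonneg (enstrophy_nonneg (u t))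
  exact key.mono_set Ioo_subset_Ioc_self

end Pool.Agent.W125.MD
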